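import Pool.Agent.Q285.HS.Fam
import Pool.Agent.Y722.HS.Bad

/-!
# The Sato-Tate law in odd weight for almost all hypersurfaces and members of linear systems, in all intervals

Let `X` be a smooth hypersurface of degree `δ` and odd dimension `n - 1` in `P ^ n` over `Q`. For a prime `p` of good
reduction `#X(F_p) = 1 + p + … + p ^ (n - 1) - t_p p ^ ((n - 1) / 2)`, where `t_p` is the normalised trace of Frobenius on
`V_l = H ^ (n - 1)(X)`, of odd weight `n - 1`. The form on `V_l` is alternating, and for a general `X` the algebraic Sato-Tate group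
is the full symplectic group (Beauville), so that the Sato-Tate conjecture predicts for the numbers `t_p` the law of the traces of the random
matrices of `USp(b)`, `b = dim V`, `b` about `δ ^ n`. Its moments of order at most `b` are those of the normal law (Diaconis and Shahshahani).

It is proved, unconditionally, that for almost all `X` this is true for the moments of order at most `(δ + 1) / 2`, with an error
`Y ^ (1 / 2 + ε / 2)` for the sum over the primes of good reduction in any interval below `Y`, and that the distribution function of the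
`t_p` is within `8 / √M` of the predicted one, `M = ⌊(δ + 1) / 4⌋`, for the primes in every interval `(Y, Y']` with at least
`Y' ^ (1 / 2 + ε)` primes (or in given sets of primes with at least so many elements in the interval).

The same is true for the members of odd dimension of general linear systems: let `W` be a subscheme of even dimension `D ≥ 2` of `P ^ n` with
about `p ^ D` points over the field with `p` elements, let `g_j` be forms, and let `V = W ∩ {∑_j g_j h_j = 0}`, `h_j` random forms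
of degree `d_j ≥ 4 M - 1`: the hypersurface sections of `W` which contain the subscheme `W ∩ {g_j = 0 for all j}`.

The case of even dimension (even weight, orthogonal groups) is the starting file `Results/MP_32ceeb_nt/RandomHypersurfaces.lean`; it refers to
the present result on odd weight, which was not among the starting files. The proof is the same and is assembled from the same library
(projects MM and HS: `Pool/Agent/Q282MM`, `Q285/HS`, `Y722/HS`; helper282, helper285, helper722, helper177): the values of forms of degree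
`k - 1` at `k` points are independent, therefore the moments of order at most `k` of the number of the points over the field with `p`
elements are those of the number of successes in independent trials with probability `1 / p`, which are near the moments of the normal law. The
chinese remainder theorem gives the second moments of the sums over primes, the inequality of Rademacher and Menshov makes them uniform over
the intervals, and the inequality of Esseen turns moments into distribution functions.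
-/

set_option autoImplicit false

namespace Pool.Agent.Results.MP_4c4ce6_nt.RandomHypersurfaces

open Finset MeasureTheory ProbabilityTheory MvPolynomial
open Pool.Agent.Y722.HS (Mon form IsSmooth)
open scoped LinearAlgebra.Projectivization

/-- The number of the points of `P ^ n` over the field with `p` elements at which all forms in `S` vanish. -/
noncomputable def points {n : ℕ} (p : ℕ) (S : Set (MvPolynomial (Fin (n + 1)) ℤ)) : ℕ :=
  open scoped Classical in
  if h : p.Prime then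
    haveI : Fact p.Prime := ⟨h⟩
    Nat.card {P : ℙ (ZMod p) (Fin (n + 1) → ZMod p) // ∀ G ∈ S, aeval P.rep G = 0}
  else 0

/-- The form `∑_j g_j h_j`, where `h_j` is the form of degree `d_j` with the coefficients `t (j, ·)`. -/
noncomputable def member {n : ℕ} {J : Type} [Fintype J] {d : J → ℕ} (g : J → MvPolynomial (Fin (n + 1)) ℤ) (t : (Σ j : J, Mon n (d j)) → ℤ) :
    MvPolynomial (Fin (n + 1)) ℤ :=
  ∑ j, g j * form fun ν => t ⟨j, ν⟩

/-- The normalised deviation `(#V(F_p) - c_p) / p ^ ((D - 1) / 2)`, `V` the intersection of `W` and the hypersurface `F = 0`. -/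
noncomputable def trace {n : ℕ} (W : Set (MvPolynomial (Fin (n + 1)) ℤ)) (D : ℕ) (c : ℕ → ℝ) (F : MvPolynomial (Fin (n + 1)) ℤ) (p : ℕ) : ℝ :=
  ((points p (W ∪ {F}) : ℝ) - c p) / Real.sqrt p ^ (D - 1)

/-- The hypersurface `F = 0` is smooth over the algebraic closure of the field with `p` elements. -/
def Good {n : ℕ} (F : MvPolynomial (Fin (n + 1)) ℤ) (p : ℕ) : Prop :=
  ∀ _ : Fact p.Prime, IsSmooth (map (algebraMap (ZMod p) (AlgebraicClosure (ZMod p))) (map (Int.castRingHom (ZMod p)) F))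

/-- The primes `p` in `S` with `Y < p ≤ Y'`. -/
def primesIn (S : Set ℕ) (Y Y' : ℕ) : Set ℕ := {p ∈ S | p.Prime ∧ Y < p ∧ p ≤ Y'}

/-- The moments of the normal law. -/
def normalMoment (k : ℕ) : ℝ := if Even k then ((k - 1).doubleFactorial : ℝ) else 0

/-- The proportion of the `p` in `V` with `z_p ≤ x`. -/
noncomputable def proportion (V : Set ℕ) (z : ℕ → ℝ) (x : ℝ) : ℝ := ({p ∈ V | z p ≤ x}.ncard : ℝ) / V.ncard

/-- The numbers `z_p` have, over all intervals of primes, the moments of order at most `2 M` of the normal law and its distribution function up to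
`4 / √M`, and up to `8 / √M` that of every law `ν` with these moments: for all `Y ≤ Y'` with `X₀ ≤ Y' ≤ R` and all `S` in `𝒮`, the
sums and proportions over the `p` of `S` in `(Y, Y']` that are in `𝒢`. -/
def Typical (M : ℕ) (ε C : ℝ) (𝒮 : Finset (Set ℕ)) (𝒢 : Set ℕ) (X₀ : ℕ) (R : ℝ) (z : ℕ → ℝ) : Prop :=
  ∀ S ∈ 𝒮, ∀ Y Y' : ℕ, Y ≤ Y' → X₀ ≤ Y' → (Y' : ℝ) ≤ R →
    (∀ k ≤ 2 * M, |∑ᶠ p ∈ primesIn (S ∩ 𝒢) Y Y', (z p ^ k - normalMoment k)| ≤ C * (Y' : ℝ) ^ (1 / 2 + ε / 2)) ∧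
    ((Y' : ℝ) ^ (1 / 2 + ε) ≤ (primesIn (S ∩ 𝒢) Y Y').ncard → ∀ x : ℝ,
      |proportion (primesIn (S ∩ 𝒢) Y Y') z x - (gaussianReal 0 1).real (Set.Iic x)| ≤ 4 / Real.sqrt M + C * (Y' : ℝ) ^ (-(ε / 2)) ∧
      ∀ (ν : Measure ℝ) [IsProbabilityMeasure ν], (∀ k ≤ 2 * M, Integrable (fun y : ℝ => y ^ k) ν) →
        (∀ k ≤ 2 * M, ∫ y, y ^ k ∂ν = normalMoment k) →
        |proportion (primesIn (S ∩ 𝒢) Y Y') z x - ν.real (Set.Iic x)| ≤ 8 / Real.sqrt M + C * (Y' : ℝ) ^ (-(ε / 2)))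

/-- The integer vectors `t` with `N i ≤ t i < N i + L i`. -/
noncomputable def box {κ : Type} [Fintype κ] [DecidableEq κ] (N : κ → ℤ) (L : κ → ℕ) : Finset (κ → ℤ) :=
  Fintype.piFinset fun i => Ico (N i) (N i + L i)

/-- For all `𝒮`, all boxes with sides at least `T` and all `X₀` the vectors `t` of the box for which `z t` is not typical at the primes
in `𝒢 t` between `X₀` and `T ^ κ₀` are at most `C |𝒮| X₀ ^ (-ε / 2)` of all. -/
def AlmostAll {κ : Type} [Fintype κ] [DecidableEq κ] (M : ℕ) (ε κ₀ C : ℝ) (𝒢 : (κ → ℤ) → Set ℕ) (z : (κ → ℤ) → ℕ → ℝ) : Prop :=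
  ∀ (𝒮 : Finset (Set ℕ)) (N : κ → ℤ) (L : κ → ℕ) (T : ℝ), 0 < T → (∀ i, T ≤ L i) → ∀ X₀ : ℕ, 1 ≤ X₀ →
    ({t ∈ box N L | ¬ Typical M ε C 𝒮 (𝒢 t) X₀ (T ^ κ₀) (z t)} : Set (κ → ℤ)).ncard ≤
      C * 𝒮.card * (X₀ : ℝ) ^ (-(ε / 2)) * ∏ i, (L i : ℝ)

lemma points_eq {n : ℕ} (p : ℕ) (S : Set (MvPolynomial (Fin (n + 1)) ℤ)) : points p S = Q285HS.points p S := rfl

lemma member_eq {n : ℕ} {J : Type} [Fintype J] {d : J → ℕ} (g : J → MvPolynomial (Fin (n + 1)) ℤ) (t : (Σ j : J, Mon n (d j)) → ℤ) :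
    member g t = Q285HS.fam g t := rfl

lemma gm_eq (k : ℕ) : normalMoment k = (Q282MM.gm k : ℝ) := by
  unfold normalMoment Q282MM.gm
  split_ifs <;> simp

lemma phi_eq (x : ℝ) : (gaussianReal 0 1).real (Set.Iic x) = Q282MM.Phi x := rfl

/-- from the engine to the statement -/
lemma almost {κ : Type} [Fintype κ] [DecidableEq κ] {M β p₁ p₀ : ℕ} {K C₀ : ℝ} (hM : 1 ≤ M) (H : (p : ℕ) → (κ → ZMod p) → ℝ)
    (hH : Q285HS.NearN H (4 * M) β p₁ K) (Bad : (p : ℕ) → Set (κ → ZMod p)) (hBad : Q285HS.FewBad Bad p₀ C₀) (ε : ℝ) (hε : 0 < ε) (hε1 : ε ≤ 1)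
    (𝒢 : (κ → ℤ) → Set ℕ) (z : (κ → ℤ) → ℕ → ℝ) (hz : ∀ t p, p.Prime → z t p = H p fun i => (t i : ZMod p))
    (hG : ∀ t p, p.Prime → (p ∈ 𝒢 t ↔ (fun i => (t i : ZMod p)) ∉ Bad p)) :
    ∃ κ₀ : ℝ, 0 < κ₀ ∧ ∃ C : ℝ, AlmostAll M ε κ₀ C 𝒢 z := by
  classical
  obtain ⟨κ₀, hκ₀, C, hC, h⟩ := Q285HS.law hM hH Bad hBad ε hε hε1
  obtain ⟨_, _, _, hnu⟩ := Q282MM.emp Q282MM.fin_true M hM
  refine ⟨κ₀, hκ₀, C, fun 𝒮 N L T hT hTL X₀ hX₀ => ?_⟩
  choose E hE1 hE2 hE3 using fun S : Set ℕ => h S N L T hT hTL X₀ hX₀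
  have hsub : ({t ∈ box N L | ¬ Typical M ε C 𝒮 (𝒢 t) X₀ (T ^ κ₀) (z t)} : Set (κ → ℤ)) ⊆ ↑(𝒮.biUnion E) := by
    rintro t ⟨ht, hnt⟩
    by_contra hno
    rw [mem_coe, mem_biUnion] at hno
    push Not at hno
    refine hnt fun S hS Y Y' hYY hY hYT => ?_
    obtain ⟨h1, h2⟩ := hE3 S t ht (hno S hS) Y Y' hYY hY hYT
    have hset : primesIn (S ∩ 𝒢 t) Y Y' = ↑(Q285HS.VV Bad S Y Y' t) := by
      ext p
      unfold primesIn Q285HS.VV Q285HS.IV
      rw [mem_coe, mem_filter, mem_filter, mem_Ioc]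
      constructor
      · rintro ⟨⟨h3, h4⟩, h5, h6, h7⟩
        exact ⟨⟨⟨h6, h7⟩, h5⟩, h3, (hG t p h5).1 h4⟩
      · rintro ⟨⟨⟨h6, h7⟩, h5⟩, h3, h4⟩
        exact ⟨⟨h3, (hG t p h5).2 h4⟩, h5, h6, h7⟩
    have hpr : ∀ p ∈ Q285HS.VV Bad S Y Y' t, p.Prime := by
      intro p hp
      unfold Q285HS.VV Q285HS.IV at hp
      exact (mem_filter.1 (mem_filter.1 hp).1).2
    rw [hset]
    refine ⟨fun k hk => ?_, fun hcard x => ?_⟩
    · rw [finsum_mem_coe_finset]
      rw [sum_congr rfl fun p hp => by rw [hz t p (hpr p hp), gm_eq]]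
      exact h1 k hk
    · rw [Set.ncard_coe_finset] at hcard
      have h3 : proportion (↑(Q285HS.VV Bad S Y Y' t)) (z t) x =
          (((Q285HS.VV Bad S Y Y' t).filter fun p => H p (fun y => (t y : ZMod p)) ≤ x).card : ℝ) / (Q285HS.VV Bad S Y Y' t).card := by
        unfold proportion
        rw [Set.ncard_coe_finset]
        congr 2
        rw [← Set.ncard_coe_finset]
        congr 1
        ext p
        rw [mem_coe, mem_filter]
        constructor
        · rintro ⟨h4, h5⟩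
          exact ⟨h4, by rw [← hz t p (hpr p h4)]; exact h5⟩
        · rintro ⟨h4, h5⟩
          exact ⟨h4, by rw [hz t p (hpr p h4)]; exact h5⟩
      have h4 := h2 hcard x
      rw [← h3] at h4
      refine ⟨h4, fun ν _ hi hk => ?_⟩
      have h5 := hnu ν hi (fun k hk' => by rw [hk k hk', gm_eq]) x
      have h6 := abs_sub_le (proportion (↑(Q285HS.VV Bad S Y Y' t)) (z t) x) (Q282MM.Phi x) (ν.real (Set.Iic x))
      rw [abs_sub_comm (Q282MM.Phi x)] at h6
      have h7 : 8 / Real.sqrt M = 4 / Real.sqrt M + 4 / Real.sqrt M := by ring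
      rw [h7]
      linarith
  have h1 := Set.ncard_le_ncard hsub (Finset.finite_toSet _)
  rw [Set.ncard_coe_finset] at h1
  have h2 : ((𝒮.biUnion E).card : ℝ) ≤ ∑ S ∈ 𝒮, C * (X₀ : ℝ) ^ (-(ε / 2)) * ∏ i, (L i : ℝ) := by
    refine le_trans (Nat.cast_le.2 card_biUnion_le) ?_
    push_cast
    exact sum_le_sum fun S _ => hE2 S
  rw [sum_const, nsmul_eq_mul] at h2
  calc (({t ∈ box N L | ¬ Typical M ε C 𝒮 (𝒢 t) X₀ (T ^ κ₀) (z t)} : Set (κ → ℤ)).ncard : ℝ) ≤ ((𝒮.biUnion E).card : ℝ) := by exact_mod_cast h1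
    _ ≤ _ := h2
    _ = _ := by ring

/-- **Part 1.** Members of linear systems on `W`. -/
theorem systems {n : ℕ} {J : Type} [Fintype J] [DecidableEq J] (d : J → ℕ) (g : J → MvPolynomial (Fin (n + 1)) ℤ)
    (W : Set (MvPolynomial (Fin (n + 1)) ℤ)) (D p₀ : ℕ) (hD : 2 ≤ D) (C₀ : ℝ)
    (hW : ∀ p : ℕ, p.Prime → p₀ ≤ p → |(points p W : ℝ) - (p : ℝ) ^ D| ≤ C₀ * ((p : ℝ) ^ D / Real.sqrt p))
    (hB : ∀ p : ℕ, p.Prime → p₀ ≤ p → (points p (W ∪ Set.range g) : ℝ) ≤ C₀ * ((p : ℝ) ^ D / Real.sqrt p)) (c : ℕ → ℝ)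
    (hc : ∀ p : ℕ, p.Prime → p₀ ≤ p → |(points p (W ∪ Set.range g) : ℝ) + ((points p W : ℝ) - points p (W ∪ Set.range g)) / p - c p| ≤
      C₀ * (Real.sqrt p ^ (D - 1) / Real.sqrt p))
    (M : ℕ) (hM : 1 ≤ M) (hd : ∀ j, 4 * M ≤ d j + 1) (ε : ℝ) (hε : 0 < ε) (hε1 : ε ≤ 1) :
    ∃ κ₀ : ℝ, 0 < κ₀ ∧ ∃ C : ℝ, AlmostAll M ε κ₀ C (fun _ => Set.univ) fun t : (Σ j : J, Mon n (d j)) → ℤ => trace W D c (member g t) := by
  have hsz : Q285HS.Sz g W D p₀ C₀ := ⟨hW, hB⟩
  have hshf : ∀ p : ℕ, p.Prime → p₀ ≤ p → |Q285HS.shf g W D c p| ≤ C₀ / Real.sqrt p := by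
    intro p hp hpp
    have hp0 : (0 : ℝ) < p := by exact_mod_cast hp.pos
    have hs0 : 0 < Real.sqrt p := Real.sqrt_pos.2 hp0
    have h1 := hc p hp hpp
    unfold Q285HS.shf
    rw [abs_div, abs_of_pos (by positivity : (0 : ℝ) < Real.sqrt p ^ (D - 1)), div_le_iff₀ (by positivity)]
    refine h1.trans (le_of_eq ?_)
    ring
  obtain ⟨K, p₁, hN⟩ := Q285HS.near_tr (d := d) hD hsz c hshf (4 * M) hd
  refine almost hM _ hN (fun _ => ∅) (p₀ := 0) (C₀ := 0) ?_ ε hε hε1 _ _ (fun t p hp => ?_) (fun t p hp => ?_)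
  · intro p _ _
    simp
  · exact Q285HS.tr_eq g W D c p hp t
  · simp

/-- **Part 2.** Hypersurfaces, primes of good reduction. -/
theorem hypersurfaces (n δ : ℕ) (hn : 2 ≤ n) (hδ : 1 ≤ δ) (M : ℕ) (hM : 1 ≤ M) (hd : 4 * M ≤ δ + 1) (ε : ℝ) (hε : 0 < ε) (hε1 : ε ≤ 1) :
    ∃ κ₀ : ℝ, 0 < κ₀ ∧ ∃ C : ℝ, AlmostAll M ε κ₀ C (fun t => {p | Good (form t) p})
      fun t : Mon n δ → ℤ => trace ∅ n (fun p => ∑ i ∈ range n, (p : ℝ) ^ i) (form t) := by
  classical
  obtain ⟨K, p₁, hN⟩ := Q285HS.near_tr (d := fun _ : Unit => δ) (by omega) (Q285HS.sz_proj (n := n) (by omega)) (Q285HS.cen n)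
    (fun p hp _ => Q285HS.shf_proj p hp) (4 * M) (fun _ => hd)
  have hN' := Q285HS.near_equiv (Equiv.uniqueSigma fun _ : Unit => Mon n δ) hN
  obtain ⟨Bad, hBad⟩ : ∃ Bad : (p : ℕ) → Set (Mon n δ → ZMod p), Bad = fun p =>
      {u | ¬ ∀ _ : Fact p.Prime, IsSmooth (map (algebraMap (ZMod p) (AlgebraicClosure (ZMod p))) (form u))} := ⟨_, rfl⟩
  have hform : ∀ (t : Mon n δ → ℤ) (p : ℕ), map (Int.castRingHom (ZMod p)) (form t) = form fun m => (t m : ZMod p) := by
    intro t p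
    unfold Pool.Agent.Y722.HS.form
    simp [map_sum, map_prod]
  refine almost hM _ hN' Bad (p₀ := δ + 1) (C₀ := (Pool.Agent.Y722.HS.Delta n δ).totalDegree) ?_ ε hε hε1 _ _ (fun t p hp => ?_) (fun t p hp => ?_)
  · intro p hp hpp
    have : Fact p.Prime := ⟨hp⟩
    have hp0 : (0 : ℝ) < p := by exact_mod_cast hp.pos
    have h1 := Pool.Agent.Y722.HS.card_bad n δ p (fun h => by
      have := Nat.le_of_dvd (by omega) h
      omega)
    have h2 : (Bad p).ncard ≤ Nat.card {c : Mon n δ → ZMod p // Pool.Agent.Y722.HS.IsBad p c} := by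
      have h3 : Nat.card {c : Mon n δ → ZMod p // Pool.Agent.Y722.HS.IsBad p c} = ({c | Pool.Agent.Y722.HS.IsBad p c} : Set (Mon n δ → ZMod p)).ncard := rfl
      rw [h3]
      refine Set.ncard_le_ncard ?_ (Set.toFinite _)
      intro u hu
      rw [hBad] at hu
      by_contra hnb
      exact hu fun _ => Pool.Agent.Y722.HS.isSmooth_of_not_isBad p hδ u hnb
    have h3 : ((Bad p).ncard : ℝ) ≤ (Nat.card {c : Mon n δ → ZMod p // Pool.Agent.Y722.HS.IsBad p c} : ℝ) := by exact_mod_cast h2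
    rw [div_mul_eq_mul_div, le_div_iff₀ hp0]
    refine le_trans (mul_le_mul_of_nonneg_right h3 hp0.le) h1
  · have h1 := Q285HS.tr_eq (fun _ : Unit => (1 : MvPolynomial (Fin (n + 1)) ℤ)) ∅ n (Q285HS.cen n) p hp
      (fun x : Q285HS.Idx n (fun _ : Unit => δ) => t x.2)
    have h2 : Q285HS.fam (fun _ : Unit => (1 : MvPolynomial (Fin (n + 1)) ℤ)) (fun x : Q285HS.Idx n (fun _ : Unit => δ) => t x.2) = form t := by
      unfold Q285HS.fam Pool.Agent.Y722.HS.form
      simp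
    unfold Q285HS.tr at h1
    rw [h2] at h1
    exact h1
  · rw [hBad]
    show Good (form t) p ↔ ¬ ¬ _
    rw [not_not]
    unfold Good
    refine forall_congr' fun hF => ?_
    have h1 := hform t p
    have h2 : map (algebraMap (ZMod p) (AlgebraicClosure (ZMod p))) (map (Int.castRingHom (ZMod p)) (form t)) =
        map (algebraMap (ZMod p) (AlgebraicClosure (ZMod p))) (form fun m => (t m : ZMod p)) := congrArg _ h1
    exact iff_of_eq (congrArg IsSmooth h2)

/-- **The Sato-Tate law in odd weight of random hypersurfaces and random members of linear systems, up to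
`O (M ^ (-1 / 2))`.** -/
theorem result :
    -- members `V_t = W ∩ {∑ g_j h_j = 0}` of linear systems, of odd dimension `D - 1`, and all primes
    (∀ (n : ℕ) (J : Type) [Fintype J] [DecidableEq J] (d : J → ℕ) (g : J → MvPolynomial (Fin (n + 1)) ℤ)
      (W : Set (MvPolynomial (Fin (n + 1)) ℤ)) (D p₀ : ℕ) (C₀ : ℝ), 2 ≤ D → Even D →
      (∀ p : ℕ, p.Prime → p₀ ≤ p → |(points p W : ℝ) - (p : ℝ) ^ D| ≤ C₀ * ((p : ℝ) ^ D / Real.sqrt p)) →
      (∀ p : ℕ, p.Prime → p₀ ≤ p → (points p (W ∪ Set.range g) : ℝ) ≤ C₀ * ((p : ℝ) ^ D / Real.sqrt p)) →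
      ∀ c : ℕ → ℝ, (∀ p : ℕ, p.Prime → p₀ ≤ p → |(points p (W ∪ Set.range g) : ℝ) + ((points p W : ℝ) - points p (W ∪ Set.range g)) / p - c p| ≤
        C₀ * (Real.sqrt p ^ (D - 1) / Real.sqrt p)) →
      ∀ (M : ℕ), 1 ≤ M → (∀ j, 4 * M ≤ d j + 1) → ∀ ε : ℝ, 0 < ε → ε ≤ 1 →
      ∃ κ₀ : ℝ, 0 < κ₀ ∧ ∃ C : ℝ, AlmostAll M ε κ₀ C (fun _ => Set.univ) fun t : (Σ j : J, Mon n (d j)) → ℤ => trace W D c (member g t)) ∧
    -- hypersurfaces of degree `δ` and odd dimension `n - 1` in `P ^ n`, and the primes of good reduction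
    (∀ n δ : ℕ, 2 ≤ n → Even n → 1 ≤ δ → ∀ M : ℕ, 1 ≤ M → 4 * M ≤ δ + 1 → ∀ ε : ℝ, 0 < ε → ε ≤ 1 →
      ∃ κ₀ : ℝ, 0 < κ₀ ∧ ∃ C : ℝ, AlmostAll M ε κ₀ C (fun t => {p | Good (form t) p})
        fun t : Mon n δ → ℤ => trace ∅ n (fun p => ∑ i ∈ range n, (p : ℝ) ^ i) (form t)) :=
  ⟨fun n J _ _ d g W D p₀ C₀ hD _ hW hB c hc M hM hd ε hε hε1 => systems d g W D p₀ hD C₀ hW hB c hc M hM hd ε hε hε1,
    fun n δ hn _ hδ M hM hd ε hε hε1 => hypersurfaces n δ hn hδ M hM hd ε hε hε1⟩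

end Pool.Agent.Results.MP_4c4ce6_nt.RandomHypersurfaces
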