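import Pool.Agent.U544.SC.Law

/-!
# MP_c481b3_nt: the Sato-Tate law from a sparse set of `L`-functions

Let `A` be an abelian variety of dimension `g` over the number field `K`, `x_v ∈ ST(A) ⊆ USp(2g)` the class
of the prime `v` and `u_1(v), …, u_{2g}(v)` its eigenvalues (at the finitely many bad primes: those of any
element; this changes the `L`-functions below by finitely many factors without zeros and poles in
`Re s > 0`).  Let `c_j(v)` be the trace of `x_v` on `Λ^j V`, `V` the standard representation.  The
characteristic polynomial of `x_v`, equivalently the conjugacy class of `x_v` in `USp(2g)`, is given by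
`c_1(v), …, c_g(v)`.

By the criterion of Serre the equidistribution of the `x_v` follows from the continuation of the
`L`-functions of ALL irreducible representations `≠ 1` to `Re s ≥ 1` without zeros.  Here only the
`L`-functions `L_l` of the representations `V_l = ⊗_j (Λ^j V)^{⊗ l_j}` are used whose exponents `l_j` are
zero or elements of a set `S` such that `∑ 1/s` diverges over the even and over the odd elements of `S`:
for instance the set of the numbers `p` and `2p` for large primes `p`, or for the large primes `p` of a
residue class.  For an elliptic curve (`g = 1`) these are the `L`-functions of `V^{⊗ p}` and `V^{⊗ 2p}`.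

The theorem is stated for every family of vectors `u(v)` of `N` numbers of absolute value one stable under
complex conjugation, and for every number `m` of exterior powers (`IsSelfDualFamily`, `coef`); so it also
applies to the cohomology of other varieties.  The definitions are in `Pool/Agent/U544/SC/Defs.lean` and
`Approx.lean`.
-/

set_option autoImplicit false

open Filter Topology NumberField IsDedekindDomain MeasureTheory
open Pool.Agent.U544.SC

namespace Pool.Agent.Results.MP_c481b3_nt.SparseSerreCriterion

/-- Let `S` be a set of positive integers with divergent sums of the reciprocals of its even and of its odd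
elements; an exponent vector `l = (l_1, …, l_m)` is allowed if each `l_j` is `0` or in `S`.

(1) *Universal relations.*  For every continuous `F : ℝ^m → ℝ` and `η > 0` there are finitely many allowed
`l` and real `a_l` such that `|F(t) - ∑ a_l t^l| ≤ η` on the cube which contains all possible vectors
`c(v)`, and for ALL number fields `K` and all families over `K` the mean value of `F(c(v))` and
`∑ a_l log|L_l(1+ε)| / log(1/ε)` differ by at most `η` for all small `ε > 0`.

(2) *Analytic density, existence of a law.*  The mean values of all continuous functions of `c(v)` exist in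
the sense of analytic density if and only if `log|L_l(1+ε)| / log(1/ε)` converges for all allowed `l` (for
example if these `L_l` are meromorphic at `s = 1`).

(3) *Analytic density, the Sato-Tate law.*  Let `ν` be a probability measure on the cube (for example the
law of `c(x)` for a random element `x` of the compact group `ST(A)`; then `∫ t^l dν` is the dimension of
the space of invariants of `V_l`).  The `c(v)` are equidistributed with the law `ν` in the sense of
analytic density if and only if `log|L_l(1+ε)| / log(1/ε) → ∫ t^l dν` for all allowed `l`.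

(4) *Natural density.*  If for every allowed `l` the number `k_l = ∫ t^l dν` is an integer and
`L_l / ζ_K^{k_l}` continues holomorphically and without zeros to a neighbourhood of every point of the
line `Re s = 1`, then the `c(v)`, ordered by the norms of the primes `v`, are equidistributed with the
law `ν`. -/
theorem result (m N : ℕ) (S : Set ℕ) (hS : IsMuntzSet S) :
    (∀ F : (Fin m → ℝ) → ℝ, Continuous F → ∀ η : ℝ, 0 < η →
      ∃ (Λ : Finset (Fin m → ℕ)) (a : (Fin m → ℕ) → ℝ), (∀ l ∈ Λ, Allowed S l) ∧
        (∀ t : Fin m → ℝ, (∀ j, |t j| ≤ 2 ^ N) → |F t - ∑ l ∈ Λ, a l * ∏ j, t j ^ l j| ≤ η) ∧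
        ∀ (K : Type) [Field K] [NumberField K] (u : HeightOneSpectrum (𝓞 K) → Fin N → ℂ),
          IsSelfDualFamily u →
          (∀ v j, |coef m (u v) j| ≤ 2 ^ N) ∧
          ∀ᶠ ε : ℝ in 𝓝[>] 0, |dens u F ε - ∑ l ∈ Λ, a l * siz u l ε| ≤ η) ∧
    ∀ (K : Type) [Field K] [NumberField K] (u : HeightOneSpectrum (𝓞 K) → Fin N → ℂ),
      IsSelfDualFamily u →
      ((∀ F : (Fin m → ℝ) → ℝ, Continuous F → ∃ x : ℝ, Tendsto (dens u F) (𝓝[>] 0) (𝓝 x)) ↔
        ∀ l : Fin m → ℕ, Allowed S l → ∃ x : ℝ, Tendsto (siz u l) (𝓝[>] 0) (𝓝 x)) ∧
      ∀ ν : Measure (Fin m → ℝ), IsProbabilityMeasure ν → (∀ᵐ t ∂ν, ∀ j, |t j| ≤ 2 ^ N) →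
        ((∀ F : (Fin m → ℝ) → ℝ, Continuous F →
            Tendsto (dens u F) (𝓝[>] 0) (𝓝 (∫ t, F t ∂ν))) ↔
          ∀ l : Fin m → ℕ, Allowed S l →
            Tendsto (siz u l) (𝓝[>] 0) (𝓝 (∫ t, ∏ j, t j ^ l j ∂ν))) ∧
        ((∀ l : Fin m → ℕ, Allowed S l → ∃ k : ℕ, (k : ℝ) = ∫ t, ∏ j, t j ^ l j ∂ν ∧
            HasHolomorphicQuotient u l k) →
          ∀ F : (Fin m → ℝ) → ℝ, Continuous F →
            Tendsto (natAvg u F) atTop (𝓝 (∫ t, F t ∂ν))) := by
  have hcast : ((2 ^ N : ℕ) : ℝ) = 2 ^ N := by push_cast; rfl
  refine ⟨fun F hF η hη => ?_, fun K _ _ u hu => ⟨exists_iff hS hu, fun ν hν1 hν => ?_⟩⟩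
  · obtain ⟨Λ, a, h1, h2, h3⟩ := approx_dens (N := N) hS hF hη
    refine ⟨Λ, a, h1, fun t ht => ?_, fun K _ _ u hu => ⟨fun v j => ?_, h3 hu⟩⟩
    · have := h2 t (by rw [hcast]; exact ht)
      linarith
    · have := abs_coef_le (m := m) (hu v).1 j
      rwa [hcast] at this
  · have hν' : ∀ᵐ t ∂ν, ∀ j, |t j| ≤ ((2 ^ N : ℕ) : ℝ) := by
      rw [hcast]
      exact hν
    exact ⟨law_iff hν' hS hu, fun h F hF => law_nat hν' hS hu h hF⟩

end Pool.Agent.Results.MP_c481b3_nt.SparseSerreCriterion
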